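import Pool.Agent.Horo.EDefs

/-!
# `Eup` and `Edn` are bijective
-/

open Topology Filter Set

namespace Horo

section

variable {B : ℕ} {r : ZMod B → ℝ}

lemma ebij_VV_succ (n : ℕ) : VV B r (n + 1) = VV B r n + r (n : ZMod B) := by
  unfold VV
  rw [Finset.sum_range_succ]

lemma ebij_VV_zero : VV B r 0 = 0 := by
  unfold VV
  simp

lemma ebij_VV_mono (hr : ∀ j, 0 < r j) {m n : ℕ} (h : m ≤ n) : VV B r m ≤ VV B r n := by
  induction n, h using Nat.le_induction with
  | base => exact le_rfl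
  | succ n _ ih =>
    rw [ebij_VV_succ]
    linarith [hr (n : ZMod B)]

lemma ebij_VV_nonneg (hr : ∀ j, 0 < r j) (n : ℕ) : 0 ≤ VV B r n := by
  rw [← ebij_VV_zero (B := B) (r := r)]
  exact ebij_VV_mono hr (Nat.zero_le n)

lemma ebij_VV_pos (hB : 0 < B) (hr : ∀ j, 0 < r j) : 0 < VV B r B := by
  have h1 := ebij_VV_mono hr (show 0 + 1 ≤ B by omega)
  rw [ebij_VV_succ, ebij_VV_zero] at h1
  linarith [hr ((0 : ℕ) : ZMod B)]

lemma ebij_end (hB : 0 < B) (hr : ∀ j, 0 < r j) (j : ZMod B) :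
    VV B r (j.val + 1) = VV B r j.val + r j ∧ VV B r j.val + r j ≤ VV B r B := by
  have : NeZero B := ⟨hB.ne'⟩
  have h1 : VV B r (j.val + 1) = VV B r j.val + r j := by
    rw [ebij_VV_succ, ZMod.natCast_zmod_val]
  refine ⟨h1, ?_⟩
  rw [← h1]
  exact ebij_VV_mono hr (ZMod.val_lt j)

lemma ebij_find (P : ℝ) (N : ℕ) (h0 : 0 ≤ P) (h1 : P < VV B r N) :
    ∃ n, n < N ∧ VV B r n ≤ P ∧ P < VV B r (n + 1) := by
  induction N with
  | zero =>
    rw [ebij_VV_zero] at h1
    linarith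
  | succ N ih =>
    by_cases h : P < VV B r N
    · obtain ⟨n, h2, h3⟩ := ih h
      exact ⟨n, by omega, h3⟩
    · exact ⟨N, by omega, not_lt.mp h, h1⟩

lemma ebij_find' (P : ℝ) (N : ℕ) (h0 : 0 < P) (h1 : P ≤ VV B r N) :
    ∃ n, n < N ∧ VV B r n < P ∧ P ≤ VV B r (n + 1) := by
  induction N with
  | zero =>
    rw [ebij_VV_zero] at h1
    linarith
  | succ N ih =>
    by_cases h : P ≤ VV B r N
    · obtain ⟨n, h2, h3⟩ := ih h
      exact ⟨n, by omega, h3⟩
    · exact ⟨N, by omega, not_le.mp h, h1⟩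

end

theorem Ebij (h : Stmt_rep) : Stmt_Ebij := by
  intro B r hB hr
  have : NeZero B := ⟨hB.ne'⟩
  have hR := ebij_VV_pos hB hr
  obtain ⟨R1, R2, R3, R4⟩ := h _ hR
  refine ⟨⟨?_, ?_⟩, ⟨?_, ?_⟩⟩
  · rintro ⟨⟨j, σ⟩, a⟩ ⟨⟨j', σ'⟩, a'⟩ hx
    obtain ⟨A1, -, -, -⟩ := h _ (hr j)
    obtain ⟨A1', -, -, -⟩ := h _ (hr j')
    obtain ⟨a1, a2, a3⟩ := A1 a
    obtain ⟨b1, b2, b3⟩ := A1' a'
    have e1 := ebij_end hB hr j
    have e2 := ebij_end hB hr j'
    unfold Eup at hx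
    simp only at hx
    rw [Sigma.mk.injEq] at hx
    obtain ⟨rfl, hx2⟩ := hx
    have hx3 := eq_of_heq hx2
    have hx4 := congrArg repO hx3
    have n1 := ebij_VV_nonneg hr (B := B) j.val
    have n2 := ebij_VV_nonneg hr (B := B) j'.val
    rw [R3 _ (by linarith) (by linarith), R3 _ (by linarith) (by linarith)] at hx4
    have hj : j = j' := by
      apply ZMod.val_injective B
      rcases lt_trichotomy j.val j'.val with h1 | h1 | h1
      · have h2 := ebij_VV_mono hr (B := B) (show j.val + 1 ≤ j'.val by omega)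
        linarith [e1.1]
      · exact h1
      · have h2 := ebij_VV_mono hr (B := B) (show j'.val + 1 ≤ j.val by omega)
        linarith [e2.1]
    subst hj
    have h5 : repO a = repO a' := by linarith
    have h6 : a = a' := by rw [← a1, h5, b1]
    rw [h6]
  · rintro ⟨σ, c⟩
    obtain ⟨c1, c2, c3⟩ := R1 c
    obtain ⟨n, h1, h2, h3⟩ := ebij_find (repO c) B c2 c3
    have hv : ((n : ZMod B)).val = n := ZMod.val_natCast_of_lt h1
    rw [ebij_VV_succ] at h3
    obtain ⟨-, -, A3, -⟩ := h _ (hr (n : ZMod B))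
    refine ⟨⟨((n : ZMod B), σ), ((repO c - VV B r n : ℝ) : AddCircle (r (n : ZMod B)))⟩, ?_⟩
    unfold Eup
    simp only
    rw [A3 _ (by linarith) (by linarith), hv, add_sub_cancel, c1]
  · rintro ⟨⟨j, σ⟩, a⟩ ⟨⟨j', σ'⟩, a'⟩ hx
    obtain ⟨-, A1, -, -⟩ := h _ (hr j)
    obtain ⟨-, A1', -, -⟩ := h _ (hr j')
    obtain ⟨a1, a2, a3⟩ := A1 a
    obtain ⟨b1, b2, b3⟩ := A1' a'
    have e1 := ebij_end hB hr j
    have e2 := ebij_end hB hr j'
    unfold Edn at hx
    simp only at hx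
    rw [Sigma.mk.injEq] at hx
    obtain ⟨rfl, hx2⟩ := hx
    have hx3 := eq_of_heq hx2
    have hx4 := congrArg repC hx3
    have n1 := ebij_VV_nonneg hr (B := B) j.val
    have n2 := ebij_VV_nonneg hr (B := B) j'.val
    rw [R4 _ (by linarith) (by linarith), R4 _ (by linarith) (by linarith)] at hx4
    have hj : j = j' := by
      apply ZMod.val_injective B
      rcases lt_trichotomy j.val j'.val with h1 | h1 | h1
      · have h2 := ebij_VV_mono hr (B := B) (show j.val + 1 ≤ j'.val by omega)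
        linarith [e1.1]
      · exact h1
      · have h2 := ebij_VV_mono hr (B := B) (show j'.val + 1 ≤ j.val by omega)
        linarith [e2.1]
    subst hj
    have h5 : repC a = repC a' := by linarith
    have h6 : a = a' := by rw [← a1, h5, b1]
    rw [h6]
  · rintro ⟨σ, c⟩
    obtain ⟨c1, c2, c3⟩ := R2 c
    obtain ⟨n, h1, h2, h3⟩ := ebij_find' (repC c) B c2 c3
    have hv : ((n : ZMod B)).val = n := ZMod.val_natCast_of_lt h1
    rw [ebij_VV_succ] at h3
    obtain ⟨-, -, -, A4⟩ := h _ (hr (n : ZMod B))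
    refine ⟨⟨((n : ZMod B), σ), ((repC c - VV B r n : ℝ) : AddCircle (r (n : ZMod B)))⟩, ?_⟩
    unfold Edn
    simp only
    rw [A4 _ (by linarith) (by linarith), hv, add_sub_cancel, c1]

end Horo
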