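import Pool.Agent.Horo.EDefs

/-! `Eup` and `Edn` are the two limits of a piecewise translation. -/

open Topology Filter Set

namespace Horo

theorem Enear (hrep : Stmt_rep) : Stmt_Enear := by
  intro B r hB hr x
  obtain ⟨⟨j, σ⟩, x⟩ := x
  obtain ⟨h1, h2, h3, h4⟩ := hrep (r j) (hr j)
  obtain ⟨a1, a2, a3⟩ := h1 x
  obtain ⟨b1, b2, b3⟩ := h2 x
  set y := repO x with hy
  set y1 := repC x with hy1
  refine ⟨min (r j - y) y1, lt_min (by linarith) b2, ?_⟩
  intro u hu0 hu
  have hu1 : u < r j - y := hu.trans_le (min_le_left _ _)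
  have hu2 : u < y1 := hu.trans_le (min_le_right _ _)
  have e1 : (u : AddCircle (r j)) + x = ((u + y : ℝ) : AddCircle (r j)) := by
    rw [AddCircle.coe_add, a1]
  have e2 : ((-u : ℝ) : AddCircle (r j)) + x = ((-u + y1 : ℝ) : AddCircle (r j)) := by
    rw [AddCircle.coe_add, b1]
  have c1 : repO ((u : AddCircle (r j)) + x) = u + y := by
    rw [e1]; exact h3 _ (by linarith) (by linarith)
  have c2 : repC ((u : AddCircle (r j)) + x) = u + y := by
    rw [e1]; exact h4 _ (by linarith) (by linarith)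
  have c3 : repO (((-u : ℝ) : AddCircle (r j)) + x) = -u + y1 := by
    rw [e2]; exact h3 _ (by linarith) (by linarith)
  have c4 : repC (((-u : ℝ) : AddCircle (r j)) + x) = -u + y1 := by
    rw [e2]; exact h4 _ (by linarith) (by linarith)
  refine ⟨?_, ?_, ?_, ?_⟩
  · show (⟨σ, ((VV B r j.val + repO ((u : AddCircle (r j)) + x) : ℝ) : AddCircle (VV B r B))⟩ :
      Cb B r) = ⟨σ, (u : AddCircle (VV B r B)) + ((VV B r j.val + y : ℝ) : AddCircle (VV B r B))⟩
    rw [c1, ← AddCircle.coe_add]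
    congr 2
    ring
  · show (⟨σ, ((VV B r j.val + repC ((u : AddCircle (r j)) + x) : ℝ) : AddCircle (VV B r B))⟩ :
      Cb B r) = ⟨σ, (u : AddCircle (VV B r B)) + ((VV B r j.val + y : ℝ) : AddCircle (VV B r B))⟩
    rw [c2, ← AddCircle.coe_add]
    congr 2
    ring
  · show (⟨σ, ((VV B r j.val + repO (((-u : ℝ) : AddCircle (r j)) + x) : ℝ) :
      AddCircle (VV B r B))⟩ : Cb B r) =
      ⟨σ, ((-u : ℝ) : AddCircle (VV B r B)) + ((VV B r j.val + y1 : ℝ) : AddCircle (VV B r B))⟩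
    rw [c3, ← AddCircle.coe_add]
    congr 2
    ring
  · show (⟨σ, ((VV B r j.val + repC (((-u : ℝ) : AddCircle (r j)) + x) : ℝ) :
      AddCircle (VV B r B))⟩ : Cb B r) =
      ⟨σ, ((-u : ℝ) : AddCircle (VV B r B)) + ((VV B r j.val + y1 : ℝ) : AddCircle (VV B r B))⟩
    rw [c4, ← AddCircle.coe_add]
    congr 2
    ring

end Horo
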