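import Pool.Agent.Horo.EDefs

/-!
# Problem MP_943ece_an: the potential of the bend on the big circle
-/

open Topology Filter Set

namespace Horo

theorem gg_cl01_nonpos {y : ℝ} (h : y ≤ 0) : cl01 y = 0 := by
  unfold cl01
  rw [min_eq_right (by linarith), max_eq_left h]

theorem gg_cl01_one {y : ℝ} (h : 1 ≤ y) : cl01 y = 1 := by
  unfold cl01
  rw [min_eq_left h, max_eq_right zero_le_one]

theorem gg_cl01_mid {y : ℝ} (h0 : 0 ≤ y) (h1 : y ≤ 1) : cl01 y = y := by
  unfold cl01
  rw [min_eq_right h1, max_eq_right h0]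

theorem gg_cl01_mono {y y' : ℝ} (h : y ≤ y') : cl01 y ≤ cl01 y' :=
  max_le_max (le_refl _) (min_le_min (le_refl _) h)

section

variable (B : ℕ) (r : ZMod B → ℝ)

theorem gg_VV_zero : VV B r 0 = 0 := by
  simp [VV]

theorem gg_VV_succ (n : ℕ) : VV B r (n + 1) = VV B r n + r (n : ZMod B) := by
  simp [VV, Finset.sum_range_succ]

theorem gg_VV_mono (hr : ∀ j, 1 ≤ r j) {n m : ℕ} (h : n ≤ m) : VV B r n ≤ VV B r m := by
  induction m, h using Nat.le_induction with
  | base => exact le_refl _
  | succ m _ ih =>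
    rw [gg_VV_succ]
    have := hr (m : ZMod B)
    linarith

theorem gg_VV_nonneg (hr : ∀ j, 1 ≤ r j) (n : ℕ) : 0 ≤ VV B r n := by
  rw [← gg_VV_zero B r]
  exact gg_VV_mono B r hr (Nat.zero_le n)

theorem gg_VV_ge (hr : ∀ j, 1 ≤ r j) (n : ℕ) : (n : ℝ) ≤ VV B r n := by
  induction n with
  | zero => simp [VV]
  | succ n ih =>
    rw [gg_VV_succ]
    have := hr (n : ZMod B)
    push_cast
    linarith

theorem gg_sum (hr : ∀ j, 1 ≤ r j) (P : ℝ) (hP : 0 ≤ P) (n : ℕ) :
    ∑ i ∈ Finset.range n, r (i : ZMod B) * cl01 ((P - VV B r i) / r (i : ZMod B)) =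
      min P (VV B r n) := by
  induction n with
  | zero => simp [VV, hP]
  | succ n ih =>
    rw [Finset.sum_range_succ, ih, gg_VV_succ]
    have hrn := hr (n : ZMod B)
    have hpos : 0 < r (n : ZMod B) := by linarith
    rcases le_or_gt P (VV B r n) with h | h
    · rw [gg_cl01_nonpos (div_nonpos_of_nonpos_of_nonneg (by linarith) hpos.le)]
      rw [min_eq_left h, min_eq_left (by linarith)]
      ring
    · rcases le_or_gt P (VV B r n + r (n : ZMod B)) with h' | h'
      · rw [gg_cl01_mid (div_nonneg (by linarith) hpos.le) (by rw [div_le_one hpos]; linarith)]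
        rw [min_eq_right h.le, min_eq_left h', mul_div_cancel₀ _ hpos.ne']
        ring
      · rw [gg_cl01_one (by rw [le_div_iff₀ hpos]; linarith)]
        rw [min_eq_right h.le, min_eq_right h'.le]
        ring

variable (θ ys a2 : ℝ) (G : ℝ → ℝ)

theorem gg_G1 (hG : Coc θ ys a2 G) : G 1 = a2 := by
  have := hG.per 0
  rw [hG.zero] at this
  simpa using this

theorem gg_GG0_zero (hr : ∀ j, 1 ≤ r j) (hG : Coc θ ys a2 G) : GG0 B r G 0 = 0 := by
  unfold GG0
  refine Finset.sum_eq_zero fun i _ => ?_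
  have hpos : 0 < r (i : ZMod B) := by
    have := hr (i : ZMod B)
    linarith
  rw [gg_cl01_nonpos, hG.zero]
  have := gg_VV_nonneg B r hr i
  exact div_nonpos_of_nonpos_of_nonneg (by linarith) hpos.le

theorem gg_GG0_top (hr : ∀ j, 1 ≤ r j) (hG : Coc θ ys a2 G) :
    GG0 B r G (VV B r B) = B * a2 := by
  unfold GG0
  have h1 : ∀ i ∈ Finset.range B, G (cl01 ((VV B r B - VV B r i) / r (i : ZMod B))) = a2 := by
    intro i hi
    have hpos : 0 < r (i : ZMod B) := by
      have := hr (i : ZMod B)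
      linarith
    rw [gg_cl01_one, gg_G1 θ ys a2 G hG]
    rw [le_div_iff₀ hpos, one_mul]
    have h2 := gg_VV_mono B r hr (Nat.succ_le_of_lt (Finset.mem_range.1 hi))
    rw [Nat.succ_eq_add_one, gg_VV_succ] at h2
    linarith
  rw [Finset.sum_congr rfl h1]
  simp

theorem gg_GG0_lip (hr : ∀ j, 1 ≤ r j) (hG : Coc θ ys a2 G) {P P' : ℝ} (h0 : 0 ≤ P)
    (h : P ≤ P') (h1 : P' ≤ VV B r B) : |GG0 B r G P - GG0 B r G P'| ≤ P' - P := by
  have h2 := gg_sum B r hr P h0 B
  have h3 := gg_sum B r hr P' (h0.trans h) B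
  rw [min_eq_left (h.trans h1)] at h2
  rw [min_eq_left h1] at h3
  unfold GG0
  rw [← Finset.sum_sub_distrib]
  refine (Finset.abs_sum_le_sum_abs _ _).trans ?_
  calc ∑ i ∈ Finset.range B, |G (cl01 ((P - VV B r i) / r (i : ZMod B))) -
        G (cl01 ((P' - VV B r i) / r (i : ZMod B)))|
      ≤ ∑ i ∈ Finset.range B, (r (i : ZMod B) * cl01 ((P' - VV B r i) / r (i : ZMod B)) -
        r (i : ZMod B) * cl01 ((P - VV B r i) / r (i : ZMod B))) := by
        refine Finset.sum_le_sum fun i _ => ?_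
        have hri := hr (i : ZMod B)
        have hpos : 0 < r (i : ZMod B) := by linarith
        have hm : cl01 ((P - VV B r i) / r (i : ZMod B)) ≤
            cl01 ((P' - VV B r i) / r (i : ZMod B)) :=
          gg_cl01_mono (div_le_div_of_nonneg_right (by linarith) hpos.le)
        refine (hG.lip _ _).trans ?_
        rw [abs_sub_comm, abs_of_nonneg (by linarith), ← mul_sub]
        have h4 : 0 ≤ cl01 ((P' - VV B r i) / r (i : ZMod B)) -
          cl01 ((P - VV B r i) / r (i : ZMod B)) := by linarith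
        nlinarith
    _ = P' - P := by
        rw [Finset.sum_sub_distrib, h2, h3]

theorem gg_floor (hr : ∀ j, 1 ≤ r j) (hG : Coc θ ys a2 G) (hR : 0 < VV B r B) (k : ℤ) (P : ℝ)
    (h0 : k * VV B r B ≤ P) (h1 : P ≤ (k + 1) * VV B r B) :
    GG B r a2 G P = k * (B * a2) + GG0 B r G (P - k * VV B r B) := by
  unfold GG
  rcases lt_or_eq_of_le h1 with h | h
  · have h2 : ⌊P / VV B r B⌋ = k := by
      rw [Int.floor_eq_iff]
      constructor
      · rw [le_div_iff₀ hR]
        exact h0
      · rw [div_lt_iff₀ hR]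
        exact h
    have h3 : VV B r B * Int.fract (P / VV B r B) = P - k * VV B r B := by
      rw [Int.fract, h2, mul_sub, mul_div_cancel₀ _ hR.ne']
      ring
    rw [h2, h3]
  · have h2 : P / VV B r B = ((k + 1 : ℤ) : ℝ) := by
      rw [h]
      push_cast
      field_simp
    rw [h2, Int.floor_intCast, Int.fract_intCast, mul_zero, gg_GG0_zero B r θ ys a2 G hr hG]
    have h3 : P - k * VV B r B = VV B r B := by
      rw [h]
      ring
    rw [h3, gg_GG0_top B r θ ys a2 G hr hG]
    push_cast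
    ring

theorem gg_lip (hB : 0 < B) (hr : ∀ j, 1 ≤ r j) (hG : Coc θ ys a2 G) (P P' : ℝ) (h : P ≤ P') :
    |GG B r a2 G P - GG B r a2 G P'| ≤ P' - P := by
  have hBR : (0 : ℝ) < B := by exact_mod_cast hB
  have hR : 0 < VV B r B := lt_of_lt_of_le hBR (gg_VV_ge B r hr B)
  have ha2 : |a2| ≤ 1 := by
    have h1 := hG.lip 1 0
    rw [gg_G1 θ ys a2 G hG, hG.zero, sub_zero, sub_zero, abs_one] at h1
    exact h1
  have hBa : |(B : ℝ) * a2| ≤ VV B r B := by
    rw [abs_mul, Nat.abs_cast]
    have h1 := gg_VV_ge B r hr B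
    have h2 := mul_le_mul_of_nonneg_left ha2 hBR.le
    linarith
  have hk1 : (⌊P / VV B r B⌋ : ℝ) * VV B r B ≤ P := by
    rw [← le_div_iff₀ hR]
    exact Int.floor_le _
  have hk2 : P ≤ ((⌊P / VV B r B⌋ : ℝ) + 1) * VV B r B := by
    rw [← div_le_iff₀ hR]
    exact (Int.lt_floor_add_one _).le
  have hk1' : (⌊P' / VV B r B⌋ : ℝ) * VV B r B ≤ P' := by
    rw [← le_div_iff₀ hR]
    exact Int.floor_le _
  have hk2' : P' ≤ ((⌊P' / VV B r B⌋ : ℝ) + 1) * VV B r B := by
    rw [← div_le_iff₀ hR]
    exact (Int.lt_floor_add_one _).le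
  have hkk : ⌊P / VV B r B⌋ ≤ ⌊P' / VV B r B⌋ :=
    Int.floor_le_floor (div_le_div_of_nonneg_right h hR.le)
  have e1 := gg_floor B r θ ys a2 G hr hG hR ⌊P / VV B r B⌋ P hk1 hk2
  have e2 := gg_floor B r θ ys a2 G hr hG hR ⌊P' / VV B r B⌋ P' hk1' hk2'
  generalize ⌊P / VV B r B⌋ = k at *
  generalize ⌊P' / VV B r B⌋ = k' at *
  rcases lt_or_eq_of_le hkk with hlt | heq
  · have f1 : |GG0 B r G (P - k * VV B r B) - GG0 B r G (VV B r B)| ≤
        VV B r B - (P - k * VV B r B) :=
      gg_GG0_lip B r θ ys a2 G hr hG (by linarith) (by linarith) (le_refl _)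
    have f2 : |GG0 B r G 0 - GG0 B r G (P' - k' * VV B r B)| ≤ P' - k' * VV B r B - 0 :=
      gg_GG0_lip B r θ ys a2 G hr hG (le_refl _) (by linarith) (by linarith)
    rw [gg_GG0_top B r θ ys a2 G hr hG] at f1
    rw [gg_GG0_zero B r θ ys a2 G hr hG] at f2
    have hd : (0 : ℝ) ≤ (k' : ℝ) - k - 1 := by
      have : k + 1 ≤ k' := hlt
      have : ((k + 1 : ℤ) : ℝ) ≤ k' := by exact_mod_cast this
      push_cast at this
      linarith
    have f3 : |((k' : ℝ) - k - 1) * (B * a2)| ≤ ((k' : ℝ) - k - 1) * VV B r B := by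
      rw [abs_mul, abs_of_nonneg hd]
      exact mul_le_mul_of_nonneg_left hBa hd
    rw [e1, e2]
    obtain ⟨a1, a1'⟩ := abs_le.1 f1
    obtain ⟨b1, b1'⟩ := abs_le.1 f2
    obtain ⟨c1, c1'⟩ := abs_le.1 f3
    rw [abs_le]
    constructor
    · linarith
    · linarith
  · subst heq
    have f1 : |GG0 B r G (P - k * VV B r B) - GG0 B r G (P' - k * VV B r B)| ≤
        (P' - k * VV B r B) - (P - k * VV B r B) :=
      gg_GG0_lip B r θ ys a2 G hr hG (by linarith) (by linarith) (by linarith)
    rw [e1, e2]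
    have : k * (B * a2) + GG0 B r G (P - k * VV B r B) -
        (k * (B * a2) + GG0 B r G (P' - k * VV B r B)) =
        GG0 B r G (P - k * VV B r B) - GG0 B r G (P' - k * VV B r B) := by ring
    rw [this]
    linarith

end

theorem GGthm : Stmt_GG := by
  intro B r θ ys a2 G hB hr hG
  have hBR : (0 : ℝ) < B := by exact_mod_cast hB
  have hR : 0 < VV B r B := lt_of_lt_of_le hBR (gg_VV_ge B r hr B)
  refine ⟨?_, ?_, ?_⟩
  · intro P
    unfold GG
    have h1 : (P + VV B r B) / VV B r B = P / VV B r B + 1 := by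
      rw [add_div, div_self hR.ne']
    rw [h1, Int.floor_add_one, Int.fract_add_one]
    push_cast
    ring
  · intro P P'
    rcases le_total P P' with h | h
    · rw [abs_sub_comm P P', abs_of_nonneg (by linarith : 0 ≤ P' - P)]
      exact gg_lip B r θ ys a2 G hB hr hG P P' h
    · rw [abs_sub_comm, abs_of_nonneg (by linarith : 0 ≤ P - P')]
      exact gg_lip B r θ ys a2 G hB hr hG P' P h
  · intro j y hy0 hy1
    have : NeZero B := ⟨hB.ne'⟩
    have hjB : j.val < B := ZMod.val_lt j
    have hjj : ((j.val : ℕ) : ZMod B) = j := ZMod.natCast_zmod_val j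
    have hV0 := gg_VV_nonneg B r hr j.val
    have hV1 : VV B r (j.val + 1) = VV B r j.val + r j := by
      rw [gg_VV_succ, hjj]
    have hV2 : VV B r j.val + r j ≤ VV B r B := by
      rw [← hV1]
      exact gg_VV_mono B r hr hjB
    have h1 := gg_floor B r θ ys a2 G hr hG hR 0 (VV B r j.val + y) (by push_cast; linarith)
      (by push_cast; linarith)
    have h2 : VV B r j.val + y - ((0 : ℤ) : ℝ) * VV B r B = VV B r j.val + y := by
      push_cast
      ring
    rw [h1, h2]
    push_cast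
    rw [zero_mul, zero_add]
    unfold GG0
    have h3 : ∀ i ∈ Finset.range B, G (cl01 ((VV B r j.val + y - VV B r i) / r (i : ZMod B))) =
        (if i < j.val then a2 else 0) + (if i = j.val then G (y / r j) else 0) := by
      intro i _
      have hri := hr (i : ZMod B)
      have hpos : 0 < r (i : ZMod B) := by linarith
      rcases lt_trichotomy i j.val with h | h | h
      · rw [if_pos h, if_neg h.ne, add_zero, gg_cl01_one, gg_G1 θ ys a2 G hG]
        rw [le_div_iff₀ hpos, one_mul]
        have h4 := gg_VV_mono B r hr (Nat.succ_le_of_lt h)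
        rw [Nat.succ_eq_add_one, gg_VV_succ] at h4
        linarith
      · subst h
        rw [if_neg (lt_irrefl _), if_pos rfl, zero_add, hjj, add_sub_cancel_left]
        have hrj : 0 < r j := by
          have := hr j
          linarith
        rw [gg_cl01_mid (div_nonneg hy0 hrj.le) (by rw [div_le_one hrj]; exact hy1)]
      · rw [if_neg h.not_gt, if_neg h.ne', add_zero, gg_cl01_nonpos, hG.zero]
        have h4 := gg_VV_mono B r hr (Nat.succ_le_of_lt h)
        rw [Nat.succ_eq_add_one, hV1] at h4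
        exact div_nonpos_of_nonpos_of_nonneg (by linarith) hpos.le
    rw [Finset.sum_congr rfl h3, Finset.sum_add_distrib]
    have h4 : ∑ i ∈ Finset.range B, (if i < j.val then a2 else 0) = j.val * a2 := by
      rw [← Finset.sum_filter, Finset.sum_const, nsmul_eq_mul]
      congr 2
      have : (Finset.range B).filter (fun i => i < j.val) = Finset.range j.val := by
        ext i
        simp only [Finset.mem_filter, Finset.mem_range]
        omega
      rw [this, Finset.card_range]
    have h5 : ∑ i ∈ Finset.range B, (if i = j.val then G (y / r j) else 0) = G (y / r j) := by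
      rw [Finset.sum_ite_eq' (Finset.range B) j.val (fun _ => G (y / r j))]
      rw [if_pos (Finset.mem_range.2 hjB)]
    rw [h4, h5]

end Horo
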