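import Pool.Agent.Horo.EDefs

open Topology Filter Set

namespace Horo

open Classical in
theorem Rbij_aux (B : ℕ) (r : ZMod B → ℝ) (θ : ℝ) (pred : ∀ j : ZMod B, AddCircle (r j) → Prop)
    (f : Cs B r → Cs B r)
    (hf : ∀ (j : ZMod B) (σ : ℤˣ) (x : AddCircle (r j)), f ⟨(j, σ), x⟩ =
      if pred j (x - ((θ * r j : ℝ) : AddCircle (r j))) then
        ⟨(j, -σ), x - ((θ * r j : ℝ) : AddCircle (r j))⟩
      else ⟨(j, σ), x - ((θ * r j : ℝ) : AddCircle (r j))⟩) :
    Function.Bijective f := by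
  rw [Function.bijective_iff_has_inverse]
  let g : Cs B r → Cs B r := fun z => if pred z.1.1 z.2 then
    ⟨(z.1.1, -z.1.2), z.2 + ((θ * r z.1.1 : ℝ) : AddCircle (r z.1.1))⟩
    else ⟨(z.1.1, z.1.2), z.2 + ((θ * r z.1.1 : ℝ) : AddCircle (r z.1.1))⟩
  have hg : ∀ (j : ZMod B) (σ : ℤˣ) (x : AddCircle (r j)), g ⟨(j, σ), x⟩ =
      if pred j x then ⟨(j, -σ), x + ((θ * r j : ℝ) : AddCircle (r j))⟩
      else ⟨(j, σ), x + ((θ * r j : ℝ) : AddCircle (r j))⟩ := fun j σ x => rfl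
  refine ⟨g, ?_, ?_⟩
  · rintro ⟨⟨j, σ⟩, x⟩
    by_cases h : pred j (x - ((θ * r j : ℝ) : AddCircle (r j)))
    · have h1 := hf j σ x
      rw [if_pos h] at h1
      rw [h1]
      have h2 := hg j (-σ) (x - ((θ * r j : ℝ) : AddCircle (r j)))
      rw [if_pos h] at h2
      rw [h2, neg_neg, sub_add_cancel]
    · have h1 := hf j σ x
      rw [if_neg h] at h1
      rw [h1]
      have h2 := hg j σ (x - ((θ * r j : ℝ) : AddCircle (r j)))
      rw [if_neg h] at h2
      rw [h2, sub_add_cancel]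
  · rintro ⟨⟨j, σ⟩, x⟩
    have h3 : ∀ y : AddCircle (r j), y + ((θ * r j : ℝ) : AddCircle (r j)) -
        ((θ * r j : ℝ) : AddCircle (r j)) = y := fun y => add_sub_cancel_right y _
    by_cases h : pred j x
    · have h1 := hg j σ x
      rw [if_pos h] at h1
      rw [h1]
      have h2 := hf j (-σ) (x + ((θ * r j : ℝ) : AddCircle (r j)))
      rw [h3 x, if_pos h] at h2
      rw [h2, neg_neg]
    · have h1 := hg j σ x
      rw [if_neg h] at h1
      rw [h1]
      have h2 := hf j σ (x + ((θ * r j : ℝ) : AddCircle (r j)))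
      rw [h3 x, if_neg h] at h2
      rw [h2]

theorem Rbij : Stmt_Rbij := by
  intro B r θ ys _ _
  exact ⟨Rbij_aux B r θ (fun j y => repO y < ys * r j) _ (fun j σ x => rfl),
    Rbij_aux B r θ (fun j y => repC y ≤ ys * r j) _ (fun j σ x => rfl)⟩

end Horo
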