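import Pool.Agent.Horo.EDefs

/-!
# `Rup` and `Rdn` are the two limits of a piecewise translation
-/

open Topology Filter Set

namespace Horo

lemma rnear_up (h : Stmt_rep) {p : ℝ} (hp : 0 < p) (b : AddCircle p) (u : ℝ) (h0 : 0 < u)
    (h1 : u < p - repO b) : repO (((u : ℝ) : AddCircle p) + b) = u + repO b ∧
      repC (((u : ℝ) : AddCircle p) + b) = u + repO b := by
  obtain ⟨R1, -, R3, R4⟩ := h p hp
  obtain ⟨b1, b2, b3⟩ := R1 b
  have h2 : ((u : ℝ) : AddCircle p) + b = ((u + repO b : ℝ) : AddCircle p) := by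
    rw [AddCircle.coe_add, b1]
  rw [h2]
  exact ⟨R3 _ (by linarith) (by linarith), R4 _ (by linarith) (by linarith)⟩

lemma rnear_dn (h : Stmt_rep) {p : ℝ} (hp : 0 < p) (b : AddCircle p) (u : ℝ) (h0 : 0 < u)
    (h1 : u < repC b) : repO (((-u : ℝ) : AddCircle p) + b) = repC b - u ∧
      repC (((-u : ℝ) : AddCircle p) + b) = repC b - u := by
  obtain ⟨-, R2, R3, R4⟩ := h p hp
  obtain ⟨b1, b2, b3⟩ := R2 b
  have h2 : ((-u : ℝ) : AddCircle p) + b = ((repC b - u : ℝ) : AddCircle p) := by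
    have h3 : repC b - u = -u + repC b := by ring
    rw [h3, AddCircle.coe_add, b1]
  rw [h2]
  exact ⟨R3 _ (by linarith) (by linarith), R4 _ (by linarith) (by linarith)⟩

theorem Rnear (h : Stmt_rep) : Stmt_Rnear := by
  intro B r θ ys hB hr _ _ x
  obtain ⟨⟨j, σ⟩, a⟩ := x
  set b : AddCircle (r j) := a - ((θ * r j : ℝ) : AddCircle (r j)) with hb
  have hshift : ∀ u : ℝ, ((u : ℝ) : AddCircle (r j)) + a - ((θ * r j : ℝ) : AddCircle (r j)) =
      ((u : ℝ) : AddCircle (r j)) + b := fun u => by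
    rw [hb]
    abel
  obtain ⟨R1, R2, -, -⟩ := h _ (hr j)
  obtain ⟨-, b2, b3⟩ := R1 b
  obtain ⟨-, c2, c3⟩ := R2 b
  have eup : ∀ a' : AddCircle (r j), Rup B r θ ys ⟨(j, σ), a'⟩ =
      if repO (a' - ((θ * r j : ℝ) : AddCircle (r j))) < ys * r j then
        ⟨(j, -σ), a' - ((θ * r j : ℝ) : AddCircle (r j))⟩
      else ⟨(j, σ), a' - ((θ * r j : ℝ) : AddCircle (r j))⟩ := fun _ => rfl
  have edn : ∀ a' : AddCircle (r j), Rdn B r θ ys ⟨(j, σ), a'⟩ =
      if repC (a' - ((θ * r j : ℝ) : AddCircle (r j))) ≤ ys * r j then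
        ⟨(j, -σ), a' - ((θ * r j : ℝ) : AddCircle (r j))⟩
      else ⟨(j, σ), a' - ((θ * r j : ℝ) : AddCircle (r j))⟩ := fun _ => rfl
  have vadd : ∀ (u : ℝ) (s : ℤˣ) (a' : AddCircle (r j)),
      u +ᵥ (⟨(j, s), a'⟩ : Cs B r) = ⟨(j, s), ((u : ℝ) : AddCircle (r j)) + a'⟩ :=
    fun _ _ _ => rfl
  -- the distances to the end of the wall
  obtain ⟨δ1, hδ1, hd1⟩ : ∃ δ1 : ℝ, 0 < δ1 ∧ (repO b < ys * r j → δ1 ≤ ys * r j - repO b) := by
    by_cases h1 : repO b < ys * r j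
    · exact ⟨ys * r j - repO b, by linarith, fun _ => le_rfl⟩
    · exact ⟨1, one_pos, fun h2 => absurd h2 h1⟩
  obtain ⟨δ2, hδ2, hd2⟩ : ∃ δ2 : ℝ, 0 < δ2 ∧ (¬ repC b ≤ ys * r j → δ2 ≤ repC b - ys * r j) := by
    by_cases h1 : repC b ≤ ys * r j
    · exact ⟨1, one_pos, fun h2 => absurd h1 h2⟩
    · exact ⟨repC b - ys * r j, by linarith [not_le.mp h1], fun _ => le_rfl⟩
  refine ⟨min (min δ1 δ2) (min (r j - repO b) (repC b)), ?_, ?_⟩
  · exact lt_min (lt_min hδ1 hδ2) (lt_min (by linarith) c2)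
  intro u hu0 hu
  have u1 : u < δ1 := lt_of_lt_of_le hu ((min_le_left _ _).trans (min_le_left _ _))
  have u2 : u < δ2 := lt_of_lt_of_le hu ((min_le_left _ _).trans (min_le_right _ _))
  have u3 : u < r j - repO b := lt_of_lt_of_le hu ((min_le_right _ _).trans (min_le_left _ _))
  have u4 : u < repC b := lt_of_lt_of_le hu ((min_le_right _ _).trans (min_le_right _ _))
  obtain ⟨p1, p2⟩ := rnear_up h (hr j) b u hu0 u3
  obtain ⟨q1, q2⟩ := rnear_dn h (hr j) b u hu0 u4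
  rw [vadd, vadd, eup, edn, eup, edn, eup, edn, hshift, hshift, p1, p2, q1, q2, ← hb]
  refine ⟨?_, ?_, ?_, ?_⟩
  · by_cases h1 : repO b < ys * r j
    · rw [if_pos (by linarith [hd1 h1]), if_pos h1, vadd]
    · rw [if_neg (by linarith [not_lt.mp h1]), if_neg h1, vadd]
  · by_cases h1 : repO b < ys * r j
    · rw [if_pos (by linarith [hd1 h1]), if_pos h1, vadd]
    · rw [if_neg (by linarith [not_lt.mp h1]), if_neg h1, vadd]
  · by_cases h1 : repC b ≤ ys * r j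
    · rw [if_pos (by linarith), if_pos h1, vadd]
    · rw [if_neg (by linarith [hd2 h1]), if_neg h1, vadd]
  · by_cases h1 : repC b ≤ ys * r j
    · rw [if_pos (by linarith), if_pos h1, vadd]
    · rw [if_neg (by linarith [hd2 h1]), if_neg h1, vadd]

end Horo
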