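import Pool.Agent.Horo.EDefs

/-!
The base of the concrete diagram is a compact Hausdorff base space.
-/

open Topology Filter Set

namespace Horo

/-- The base is a compact Hausdorff base space. -/
theorem baseC (h1 : Stmt_baseSum) (h2 : Stmt_circles) : Stmt_baseC := by
  intro B r hB hr
  have : NeZero B := ⟨hB.ne'⟩
  have hV : 0 < VV B r B := by
    unfold VV
    apply Finset.sum_pos (fun i _ => hr _)
    exact ⟨0, Finset.mem_range.mpr hB⟩
  obtain ⟨a1, a2, a3⟩ := h2 (ZMod B × ℤˣ) (fun p => r p.1) (fun p => hr p.1)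
  obtain ⟨b1, b2, b3⟩ := h2 ℤˣ (fun _ => VV B r B) (fun _ => hV)
  have : CompactSpace (Cs B r) := a1
  have : T2Space (Cs B r) := a2
  have : CompactSpace (Cb B r) := b1
  have : T2Space (Cb B r) := b2
  have a4 : BaseSpace (Cs B r) := a3
  have b4 : BaseSpace (Cb B r) := b3
  refine ⟨?_, ?_, ?_, ?_⟩
  · show CompactSpace (Cs B r ⊕ (Cb B r ⊕ Cs B r))
    infer_instance
  · show T2Space (Cs B r ⊕ (Cb B r ⊕ Cs B r))
    infer_instance
  · exact h1 (Cs B r) (Cb B r ⊕ Cs B r) a4 (h1 (Cb B r) (Cs B r) b4 a4)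
  · exact ⟨Sum.inl ⟨(0, 1), 0⟩⟩

end Horo
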