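import Pool.Agent.Horo.EDefs

open Topology Filter Set

namespace Horo

theorem baseSum : Stmt_baseSum := by
  intro C C' _ _ _ _ h h'
  refine ⟨?_, ?_, ?_⟩
  · have h1 : Continuous ((fun p : ℝ × (C ⊕ C') => p.1 +ᵥ p.2) ∘
        (Homeomorph.prodSumDistrib (X := ℝ) (Y := C) (Z := C')).symm) := by
      rw [continuous_sum_dom]
      exact ⟨continuous_inl.comp h.cont, continuous_inr.comp h'.cont⟩
    have h2 := h1.comp (Homeomorph.prodSumDistrib (X := ℝ) (Y := C) (Z := C')).continuous
    have h3 : ((fun p : ℝ × (C ⊕ C') => p.1 +ᵥ p.2) ∘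
        (Homeomorph.prodSumDistrib (X := ℝ) (Y := C) (Z := C')).symm) ∘
        (Homeomorph.prodSumDistrib (X := ℝ) (Y := C) (Z := C')) =
        fun p : ℝ × (C ⊕ C') => p.1 +ᵥ p.2 := by
      funext p
      simp only [Function.comp, Homeomorph.symm_apply_apply]
    rwa [h3] at h2
  · obtain ⟨r, hr, hi⟩ := h.rad
    obtain ⟨r', hr', hi'⟩ := h'.rad
    refine ⟨min r r', lt_min hr hr', ?_⟩
    rintro (x | x)
    · intro u hu v hv huv
      refine hi x ⟨?_, hu.2.trans (min_le_left _ _)⟩ ⟨?_, hv.2.trans (min_le_left _ _)⟩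
        (Sum.inl_injective huv)
      · have := hu.1
        have := min_le_left r r'
        linarith
      · have := hv.1
        have := min_le_left r r'
        linarith
    · intro u hu v hv huv
      refine hi' x ⟨?_, hu.2.trans (min_le_right _ _)⟩ ⟨?_, hv.2.trans (min_le_right _ _)⟩
        (Sum.inr_injective huv)
      · have := hu.1
        have := min_le_right r r'
        linarith
      · have := hv.1
        have := min_le_right r r'
        linarith
  · rintro (x | x) r hr
    · have h1 : (fun u : ℝ => u +ᵥ (Sum.inl x : C ⊕ C')) '' Ioo (-r) r =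
          Sum.inl '' ((fun u : ℝ => u +ᵥ x) '' Ioo (-r) r) := by
        rw [image_image]
        rfl
      rw [h1]
      exact isOpenMap_inl _ (h.isOpen_ball x r hr)
    · have h1 : (fun u : ℝ => u +ᵥ (Sum.inr x : C ⊕ C')) '' Ioo (-r) r =
          Sum.inr '' ((fun u : ℝ => u +ᵥ x) '' Ioo (-r) r) := by
        rw [image_image]
        rfl
      rw [h1]
      exact isOpenMap_inr _ (h'.isOpen_ball x r hr)

end Horo
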