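import Pool.Agent.Horo.EDefs

/-!
# Problem MP_943ece_an: the bend is a cocycle
-/

open Topology Filter Set

namespace Horo

theorem bendCoc_lift (h : Stmt_rep) {p : ℝ} (hp : 0 < p) (y : ℝ) :
    ∃ n : ℤ, repO (y : AddCircle p) = y + n * p := by
  have h1 := ((h p hp).1 (y : AddCircle p)).1
  rw [QuotientAddGroup.eq] at h1
  obtain ⟨n, hn⟩ := AddSubgroup.mem_zmultiples_iff.1 h1
  refine ⟨-n, ?_⟩
  rw [zsmul_eq_mul] at hn
  push_cast
  linarith

theorem bendCoc_per (a p : ℝ) (G : ℝ → ℝ) (hG : ∀ y, G (y + p) = G y + a) (y : ℝ) (n : ℤ) :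
    G (y + n * p) = G y + n * a := by
  induction n using Int.induction_on with
  | zero => simp
  | succ i ih =>
    have h1 : y + ((i : ℤ) + 1 : ℤ) * p = y + (i : ℤ) * p + p := by
      push_cast
      ring
    rw [h1, hG, ih]
    push_cast
    ring
  | pred i ih =>
    have h1 : y + (-(i : ℤ) : ℤ) * p = y + (-(i : ℤ) - 1 : ℤ) * p + p := by
      push_cast
      ring
    rw [h1, hG] at ih
    push_cast at ih ⊢
    linarith

theorem bendCoc_small (h : Stmt_rep) {θ ys a2 : ℝ} {G : ℝ → ℝ} (hG : Coc θ ys a2 G) {p : ℝ}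
    (hp : 0 < p) (y u : ℝ) : G ((repO (y : AddCircle p) + u) / p) - G (repO (y : AddCircle p) / p) =
      G ((y + u) / p) - G (y / p) := by
  obtain ⟨n, hn⟩ := bendCoc_lift h hp y
  rw [hn]
  have h1 : (y + n * p + u) / p = (y + u) / p + n * 1 := by
    field_simp
    ring
  have h2 : (y + n * p) / p = y / p + n * 1 := by
    field_simp
  rw [h1, h2, bendCoc_per a2 1 G hG.per, bendCoc_per a2 1 G hG.per]
  ring

theorem bendCoc_vadd_small {ι : Type} (len : ι → ℝ) (c : ι) (y u : ℝ) :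
    u +ᵥ (⟨c, (y : AddCircle (len c))⟩ : Circles len) =
      ⟨c, ((y + u : ℝ) : AddCircle (len c))⟩ := by
  show (⟨c, (u : AddCircle (len c)) + (y : AddCircle (len c))⟩ : Circles len) = _
  rw [← AddCircle.coe_add, add_comm u y]

theorem bendCoc (h : Stmt_rep) (hGG : Stmt_GG) : Stmt_bendCoc := by
  intro B r θ ys t a2 G hB hr hG ht0 ht1
  have hpos : ∀ j, 0 < r j := fun j => lt_of_lt_of_le one_pos (hr j)
  obtain ⟨g1, g2, g3⟩ := hGG B r θ ys a2 G hB hr hG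
  have hR : 0 < VV B r B := by
    have : ∀ n : ℕ, (n : ℝ) ≤ VV B r n := by
      intro n
      induction n with
      | zero => simp [VV]
      | succ n ih =>
        have h1 : VV B r (n + 1) = VV B r n + r (n : ZMod B) := by
          simp [VV, Finset.sum_range_succ]
        rw [h1]
        have := hr (n : ZMod B)
        push_cast
        linarith
    have hBR : (0 : ℝ) < B := by exact_mod_cast hB
    exact lt_of_lt_of_le hBR (this B)
  have i3 : ∀ j σ (y u : ℝ), bendC B r t a2 G (Sum.inl ⟨(j, σ), (y : AddCircle (r j))⟩) u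
      = t * (σ : ℤ) * (G ((y + u) / r j) - G (y / r j)) := by
    intro j σ y u
    show t * (σ : ℤ) * (G ((repO (y : AddCircle (r j)) + u) / r j) -
      G (repO (y : AddCircle (r j)) / r j)) = _
    rw [bendCoc_small h hG (hpos j)]
  have i5 : ∀ j σ (y u : ℝ), bendC B r t a2 G (Sum.inr (Sum.inr ⟨(j, σ), (y : AddCircle (r j))⟩)) u
      = t * (σ : ℤ) * (G ((y + u) / r j) - G (y / r j)) := by
    intro j σ y u
    show t * (σ : ℤ) * (G ((repO (y : AddCircle (r j)) + u) / r j) -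
      G (repO (y : AddCircle (r j)) / r j)) = _
    rw [bendCoc_small h hG (hpos j)]
  have i4 : ∀ σ (y u : ℝ),
      bendC B r t a2 G (Sum.inr (Sum.inl ⟨σ, (y : AddCircle (VV B r B))⟩)) u
      = t * (σ : ℤ) * (GG B r a2 G (y + u) - GG B r a2 G y) := by
    intro σ y u
    show t * (σ : ℤ) * (GG B r a2 G (repO (y : AddCircle (VV B r B)) + u) -
      GG B r a2 G (repO (y : AddCircle (VV B r B)))) = _
    obtain ⟨n, hn⟩ := bendCoc_lift h hR y
    rw [hn]
    have h1 : y + n * VV B r B + u = y + u + n * VV B r B := by ring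
    rw [h1, bendCoc_per (B * a2) (VV B r B) (GG B r a2 G) g1,
      bendCoc_per (B * a2) (VV B r B) (GG B r a2 G) g1]
    ring
  have hσ : ∀ σ : ℤˣ, |(((σ : ℤˣ) : ℤ) : ℝ)| = 1 := by
    intro σ
    rcases Int.units_eq_one_or σ with h | h
    · rw [h]
      simp
    · rw [h]
      simp
  have hb : ∀ (σ : ℤˣ) (X u : ℝ), |X| ≤ |u| → |t * ((σ : ℤ) : ℝ) * X| ≤ 1 / 2 * |u| := by
    intro σ X u hX
    rw [abs_mul, abs_mul, hσ, abs_of_nonneg ht0, mul_one]
    exact mul_le_mul ht1 hX (abs_nonneg _) (by norm_num)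
  have hsm : ∀ (j : ZMod B) (y u : ℝ), |G ((y + u) / r j) - G (y / r j)| ≤ |u| := by
    intro j y u
    refine (hG.lip _ _).trans ?_
    rw [← sub_div, add_sub_cancel_left, abs_div, abs_of_pos (hpos j)]
    exact div_le_self (abs_nonneg _) (hr j)
  refine ⟨?_, ?_, i3, i4, i5⟩
  · intro c u v
    rcases c with ⟨⟨j, σ⟩, x⟩ | ⟨σ, x⟩ | ⟨⟨j, σ⟩, x⟩
    · obtain ⟨y, rfl⟩ : ∃ y : ℝ, (y : AddCircle (r j)) = x := ⟨_, ((h (r j) (hpos j)).1 x).1⟩
      have h1 : u +ᵥ (Sum.inl ⟨(j, σ), (y : AddCircle (r j))⟩ : CC B r) =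
          Sum.inl ⟨(j, σ), ((y + u : ℝ) : AddCircle (r j))⟩ := by
        show (Sum.inl (u +ᵥ (⟨(j, σ), (y : AddCircle (r j))⟩ : Cs B r)) : CC B r) = _
        rw [bendCoc_vadd_small (fun p : ZMod B × ℤˣ => r p.1) (j, σ) y u]
      rw [h1, i3, i3, i3, ← add_assoc]
      ring
    · obtain ⟨y, rfl⟩ : ∃ y : ℝ, (y : AddCircle (VV B r B)) = x := ⟨_, ((h (VV B r B) hR).1 x).1⟩
      have h1 : u +ᵥ (Sum.inr (Sum.inl ⟨σ, (y : AddCircle (VV B r B))⟩) : CC B r) =
          Sum.inr (Sum.inl ⟨σ, ((y + u : ℝ) : AddCircle (VV B r B))⟩) := by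
        show (Sum.inr (Sum.inl (u +ᵥ (⟨σ, (y : AddCircle (VV B r B))⟩ : Cb B r))) : CC B r) = _
        rw [bendCoc_vadd_small (fun _ : ℤˣ => VV B r B) σ y u]
      rw [h1, i4, i4, i4, ← add_assoc]
      ring
    · obtain ⟨y, rfl⟩ : ∃ y : ℝ, (y : AddCircle (r j)) = x := ⟨_, ((h (r j) (hpos j)).1 x).1⟩
      have h1 : u +ᵥ (Sum.inr (Sum.inr ⟨(j, σ), (y : AddCircle (r j))⟩) : CC B r) =
          Sum.inr (Sum.inr ⟨(j, σ), ((y + u : ℝ) : AddCircle (r j))⟩) := by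
        show (Sum.inr (Sum.inr (u +ᵥ (⟨(j, σ), (y : AddCircle (r j))⟩ : Cs B r))) : CC B r) = _
        rw [bendCoc_vadd_small (fun p : ZMod B × ℤˣ => r p.1) (j, σ) y u]
      rw [h1, i5, i5, i5, ← add_assoc]
      ring
  · intro c u
    rcases c with ⟨⟨j, σ⟩, x⟩ | ⟨σ, x⟩ | ⟨⟨j, σ⟩, x⟩
    · obtain ⟨y, rfl⟩ : ∃ y : ℝ, (y : AddCircle (r j)) = x := ⟨_, ((h (r j) (hpos j)).1 x).1⟩
      rw [i3]
      exact hb σ _ u (hsm j y u)
    · obtain ⟨y, rfl⟩ : ∃ y : ℝ, (y : AddCircle (VV B r B)) = x := ⟨_, ((h (VV B r B) hR).1 x).1⟩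
      rw [i4]
      refine hb σ _ u ?_
      refine (g2 _ _).trans ?_
      rw [add_sub_cancel_left]
    · obtain ⟨y, rfl⟩ : ∃ y : ℝ, (y : AddCircle (r j)) = x := ⟨_, ((h (r j) (hpos j)).1 x).1⟩
      rw [i5]
      exact hb σ _ u (hsm j y u)

end Horo
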