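import Pool.Agent.Horo.EDefs

/-!
# Problem MP_943ece_an: the bend is invariant under the seam maps
-/

open Topology Filter Set

namespace Horo

theorem bendInv (h : Stmt_rep) (hGG : Stmt_GG) (hC : Stmt_bendCoc) : Stmt_bendInv := by
  intro B r θ ys t a2 G hB hr hG ht0 ht1 hys0 hys1 x
  have hpos : ∀ j, 0 < r j := fun j => lt_of_lt_of_le one_pos (hr j)
  obtain ⟨-, -, g3⟩ := hGG B r θ ys a2 G hB hr hG
  obtain ⟨-, -, i3, i4, i5⟩ := hC B r θ ys t a2 G hB hr hG ht0 ht1
  obtain ⟨⟨j, σ⟩, x2⟩ := x
  have hrj : 0 < r j := hpos j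
  have hne : r j ≠ 0 := hrj.ne'
  obtain ⟨hO, hCc, -, -⟩ := h (r j) hrj
  -- the four representatives
  obtain ⟨y0c, y00, y01⟩ := hO x2
  obtain ⟨y1c, y10, y11⟩ := hCc x2
  obtain ⟨z0c, z00, z01⟩ := hO (x2 - ((θ * r j : ℝ) : AddCircle (r j)))
  obtain ⟨z1c, z10, z11⟩ := hCc (x2 - ((θ * r j : ℝ) : AddCircle (r j)))
  set y := repO x2 with hy
  set y1 := repC x2 with hy1
  set z := repO (x2 - ((θ * r j : ℝ) : AddCircle (r j))) with hz
  set z1 := repC (x2 - ((θ * r j : ℝ) : AddCircle (r j))) with hz1
  have hxz : x2 = ((z + θ * r j : ℝ) : AddCircle (r j)) := by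
    rw [AddCircle.coe_add, z0c, sub_add_cancel]
  have hxz1 : x2 = ((z1 + θ * r j : ℝ) : AddCircle (r j)) := by
    rw [AddCircle.coe_add, z1c, sub_add_cancel]
  have hysr : 0 < ys * r j := mul_pos hys0 hrj
  have hysr1 : ys * r j < r j := by
    have := mul_lt_mul_of_pos_right hys1 hrj
    linarith
  -- the radius
  obtain ⟨δ, hδ, hδ1, hδ2, hδ3, hδ4, hδ5, hδ6⟩ : ∃ δ : ℝ, 0 < δ ∧ δ ≤ r j - y ∧ δ ≤ y1 ∧
      δ ≤ r j - z ∧ δ ≤ z1 ∧ (z < ys * r j → δ ≤ ys * r j - z) ∧
      (ys * r j < z1 → δ ≤ z1 - ys * r j) := by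
    by_cases c1 : z < ys * r j
    · by_cases c2 : ys * r j < z1
      · refine ⟨min (min (min (r j - y) y1) (min (r j - z) z1))
          (min (ys * r j - z) (z1 - ys * r j)), ?_, ?_, ?_, ?_, ?_, ?_, ?_⟩
        · refine lt_min (lt_min (lt_min ?_ ?_) (lt_min ?_ ?_)) (lt_min ?_ ?_) <;> linarith
        · exact ((min_le_left _ _).trans (min_le_left _ _)).trans (min_le_left _ _)
        · exact ((min_le_left _ _).trans (min_le_left _ _)).trans (min_le_right _ _)
        · exact ((min_le_left _ _).trans (min_le_right _ _)).trans (min_le_left _ _)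
        · exact ((min_le_left _ _).trans (min_le_right _ _)).trans (min_le_right _ _)
        · intro _
          exact (min_le_right _ _).trans (min_le_left _ _)
        · intro _
          exact (min_le_right _ _).trans (min_le_right _ _)
      · refine ⟨min (min (min (r j - y) y1) (min (r j - z) z1))
          (ys * r j - z), ?_, ?_, ?_, ?_, ?_, ?_, ?_⟩
        · refine lt_min (lt_min (lt_min ?_ ?_) (lt_min ?_ ?_)) ?_ <;> linarith
        · exact ((min_le_left _ _).trans (min_le_left _ _)).trans (min_le_left _ _)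
        · exact ((min_le_left _ _).trans (min_le_left _ _)).trans (min_le_right _ _)
        · exact ((min_le_left _ _).trans (min_le_right _ _)).trans (min_le_left _ _)
        · exact ((min_le_left _ _).trans (min_le_right _ _)).trans (min_le_right _ _)
        · intro _
          exact min_le_right _ _
        · intro c
          exact absurd c c2
    · by_cases c2 : ys * r j < z1
      · refine ⟨min (min (min (r j - y) y1) (min (r j - z) z1))
          (z1 - ys * r j), ?_, ?_, ?_, ?_, ?_, ?_, ?_⟩
        · refine lt_min (lt_min (lt_min ?_ ?_) (lt_min ?_ ?_)) ?_ <;> linarith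
        · exact ((min_le_left _ _).trans (min_le_left _ _)).trans (min_le_left _ _)
        · exact ((min_le_left _ _).trans (min_le_left _ _)).trans (min_le_right _ _)
        · exact ((min_le_left _ _).trans (min_le_right _ _)).trans (min_le_left _ _)
        · exact ((min_le_left _ _).trans (min_le_right _ _)).trans (min_le_right _ _)
        · intro c
          exact absurd c c1
        · intro _
          exact min_le_right _ _
      · refine ⟨min (min (r j - y) y1) (min (r j - z) z1), ?_, ?_, ?_, ?_, ?_, ?_, ?_⟩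
        · refine lt_min (lt_min ?_ ?_) (lt_min ?_ ?_) <;> linarith
        · exact (min_le_left _ _).trans (min_le_left _ _)
        · exact (min_le_left _ _).trans (min_le_right _ _)
        · exact (min_le_right _ _).trans (min_le_left _ _)
        · exact (min_le_right _ _).trans (min_le_right _ _)
        · intro c
          exact absurd c c1
        · intro c
          exact absurd c c2
  refine ⟨δ, hδ, fun u hu0 huδ => ⟨?_, ?_, ?_, ?_⟩⟩
  · have e1 : Eup B r ⟨(j, σ), x2⟩ =
        ⟨σ, ((VV B r j.val + y : ℝ) : AddCircle (VV B r B))⟩ := rfl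
    rw [e1, i4]
    have e2 : bendC B r t a2 G (Sum.inl ⟨(j, σ), x2⟩) u =
        t * (σ : ℤ) * (G ((y + u) / r j) - G (y / r j)) := rfl
    rw [e2, add_assoc, g3 j (y + u) (by linarith) (by linarith), g3 j y y00 y01.le]
    ring
  · have e1 : Edn B r ⟨(j, σ), x2⟩ =
        ⟨σ, ((VV B r j.val + y1 : ℝ) : AddCircle (VV B r B))⟩ := rfl
    rw [e1, i4]
    have e2 : bendC B r t a2 G (Sum.inl ⟨(j, σ), x2⟩) (-u) =
        t * (σ : ℤ) * (G ((y1 + -u) / r j) - G (y1 / r j)) := by
      rw [← y1c]
      exact i3 j σ y1 (-u)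
    rw [e2, add_assoc, g3 j (y1 + -u) (by linarith) (by linarith), g3 j y1 y10.le y11]
    ring
  · have e2 : bendC B r t a2 G (Sum.inr (Sum.inr ⟨(j, σ), x2⟩)) u =
        t * (σ : ℤ) * (G ((z + θ * r j + u) / r j) - G ((z + θ * r j) / r j)) := by
      rw [hxz]
      exact i5 j σ (z + θ * r j) u
    have e3 : (z + θ * r j + u) / r j = (z + u) / r j + θ := by
      field_simp
      ring
    have e4 : (z + θ * r j) / r j = z / r j + θ := by
      field_simp
    rw [e2, e3, e4]
    by_cases c : z < ys * r j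
    · have e1 : Rup B r θ ys ⟨(j, σ), x2⟩ =
          ⟨(j, -σ), x2 - ((θ * r j : ℝ) : AddCircle (r j))⟩ := by
        unfold Rup
        exact if_pos c
      have hu := hδ5 c
      have w1 := hG.wall (z / r j) (div_nonneg z00 hrj.le) (by
        rw [div_le_iff₀ hrj]
        exact c.le)
      have w2 := hG.wall ((z + u) / r j) (div_nonneg (by linarith) hrj.le) (by
        rw [div_le_iff₀ hrj]
        linarith)
      rw [e1, ← z0c, i3]
      push_cast
      linear_combination t * (σ : ℤ) * (w1 - w2)
    · have e1 : Rup B r θ ys ⟨(j, σ), x2⟩ =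
          ⟨(j, σ), x2 - ((θ * r j : ℝ) : AddCircle (r j))⟩ := by
        unfold Rup
        exact if_neg c
      push Not at c
      have w1 := hG.gap (z / r j) (by rw [le_div_iff₀ hrj]; exact c) (by
        rw [div_le_iff₀ hrj]
        linarith)
      have w2 := hG.gap ((z + u) / r j) (by rw [le_div_iff₀ hrj]; linarith) (by
        rw [div_le_iff₀ hrj]
        linarith)
      rw [e1, ← z0c, i3]
      linear_combination t * (σ : ℤ) * (w1 - w2)
  · have e2 : bendC B r t a2 G (Sum.inr (Sum.inr ⟨(j, σ), x2⟩)) (-u) =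
        t * (σ : ℤ) * (G ((z1 + θ * r j + -u) / r j) - G ((z1 + θ * r j) / r j)) := by
      rw [hxz1]
      exact i5 j σ (z1 + θ * r j) (-u)
    have e3 : (z1 + θ * r j + -u) / r j = (z1 + -u) / r j + θ := by
      field_simp
      ring
    have e4 : (z1 + θ * r j) / r j = z1 / r j + θ := by
      field_simp
    rw [e2, e3, e4]
    by_cases c : z1 ≤ ys * r j
    · have e1 : Rdn B r θ ys ⟨(j, σ), x2⟩ =
          ⟨(j, -σ), x2 - ((θ * r j : ℝ) : AddCircle (r j))⟩ := by
        unfold Rdn
        exact if_pos c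
      have w1 := hG.wall (z1 / r j) (div_nonneg z10.le hrj.le) (by
        rw [div_le_iff₀ hrj]
        exact c)
      have w2 := hG.wall ((z1 + -u) / r j) (div_nonneg (by linarith) hrj.le) (by
        rw [div_le_iff₀ hrj]
        linarith)
      rw [e1, ← z1c, i3]
      push_cast
      linear_combination t * (σ : ℤ) * (w1 - w2)
    · have e1 : Rdn B r θ ys ⟨(j, σ), x2⟩ =
          ⟨(j, σ), x2 - ((θ * r j : ℝ) : AddCircle (r j))⟩ := by
        unfold Rdn
        exact if_neg c
      push Not at c
      have hu := hδ6 c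
      have w1 := hG.gap (z1 / r j) (by rw [le_div_iff₀ hrj]; exact c.le) (by
        rw [div_le_iff₀ hrj]
        linarith)
      have w2 := hG.gap ((z1 + -u) / r j) (by rw [le_div_iff₀ hrj]; linarith) (by
        rw [div_le_iff₀ hrj]
        linarith)
      rw [e1, ← z1c, i3]
      linear_combination t * (σ : ℤ) * (w1 - w2)

end Horo
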