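import Pool.Agent.Horo.EDefs

open Topology Filter Set

namespace Horo

theorem connC_circle {ι : Type} (len : ι → ℝ) (c : ι) (a b : AddCircle (len c)) :
    ∃ u : ℝ, (⟨c, b⟩ : Circles len) = u +ᵥ (⟨c, a⟩ : Circles len) := by
  obtain ⟨a', rfl⟩ := QuotientAddGroup.mk_surjective a
  obtain ⟨b', rfl⟩ := QuotientAddGroup.mk_surjective b
  refine ⟨b' - a', ?_⟩
  show (⟨c, (b' : AddCircle (len c))⟩ : Circles len) =
    ⟨c, ((b' - a' : ℝ) : AddCircle (len c)) + (a' : AddCircle (len c))⟩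
  rw [← AddCircle.coe_add, sub_add_cancel]

theorem connC (hrep : Stmt_rep) : Stmt_connC := by
  intro B r θ ys hB hr hys _ up h1 h2 h3
  have hsymm : ∀ x y : CC B r, Relation.EqvGen (fun x y => (∃ u : ℝ, y = u +ᵥ x) ∨ y = up x) x y →
      Relation.EqvGen (fun x y => (∃ u : ℝ, y = u +ᵥ x) ∨ y = up x) y x :=
    fun x y h => Relation.EqvGen.symm _ _ h
  have htrans : ∀ x y z : CC B r,
      Relation.EqvGen (fun x y => (∃ u : ℝ, y = u +ᵥ x) ∨ y = up x) x y →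
      Relation.EqvGen (fun x y => (∃ u : ℝ, y = u +ᵥ x) ∨ y = up x) y z →
      Relation.EqvGen (fun x y => (∃ u : ℝ, y = u +ᵥ x) ∨ y = up x) x z :=
    fun x y z h h' => Relation.EqvGen.trans _ _ _ h h'
  -- points of the same circle
  have c1 : ∀ (c : ZMod B × ℤˣ) (a b : AddCircle (r c.1)),
      Relation.EqvGen (fun x y => (∃ u : ℝ, y = u +ᵥ x) ∨ y = up x)
        (Sum.inl ⟨c, a⟩ : CC B r) (Sum.inl ⟨c, b⟩) := by
    intro c a b
    obtain ⟨u, hu⟩ := connC_circle (fun p : ZMod B × ℤˣ => r p.1) c a b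
    exact Relation.EqvGen.rel _ _ (Or.inl ⟨u, congrArg Sum.inl hu⟩)
  have c2 : ∀ (c : ℤˣ) (a b : AddCircle (VV B r B)),
      Relation.EqvGen (fun x y => (∃ u : ℝ, y = u +ᵥ x) ∨ y = up x)
        (Sum.inr (Sum.inl ⟨c, a⟩) : CC B r) (Sum.inr (Sum.inl ⟨c, b⟩)) := by
    intro c a b
    obtain ⟨u, hu⟩ := connC_circle (fun _ : ℤˣ => VV B r B) c a b
    exact Relation.EqvGen.rel _ _ (Or.inl ⟨u, congrArg (fun z => Sum.inr (Sum.inl z)) hu⟩)
  have c3 : ∀ (c : ZMod B × ℤˣ) (a b : AddCircle (r c.1)),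
      Relation.EqvGen (fun x y => (∃ u : ℝ, y = u +ᵥ x) ∨ y = up x)
        (Sum.inr (Sum.inr ⟨c, a⟩) : CC B r) (Sum.inr (Sum.inr ⟨c, b⟩)) := by
    intro c a b
    obtain ⟨u, hu⟩ := connC_circle (fun p : ZMod B × ℤˣ => r p.1) c a b
    exact Relation.EqvGen.rel _ _ (Or.inl ⟨u, congrArg (fun z => Sum.inr (Sum.inr z)) hu⟩)
  -- the stages
  have s12 : ∀ x : Cs B r, Relation.EqvGen (fun x y => (∃ u : ℝ, y = u +ᵥ x) ∨ y = up x)
      (Sum.inl x : CC B r) (Sum.inr (Sum.inl (Eup B r x))) :=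
    fun x => Relation.EqvGen.rel _ _ (Or.inr (h1 x).symm)
  have s23 : ∀ x : Cs B r, Relation.EqvGen (fun x y => (∃ u : ℝ, y = u +ᵥ x) ∨ y = up x)
      (Sum.inr (Sum.inl (Eup B r x)) : CC B r) (Sum.inr (Sum.inr x)) :=
    fun x => Relation.EqvGen.rel _ _ (Or.inr (h2 x).symm)
  have s13 : ∀ x : Cs B r, Relation.EqvGen (fun x y => (∃ u : ℝ, y = u +ᵥ x) ∨ y = up x)
      (Sum.inl x : CC B r) (Sum.inr (Sum.inr x)) :=
    fun x => htrans _ _ _ (s12 x) (s23 x)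
  -- to the base points
  have b2 : ∀ (σ : ℤˣ) (a : AddCircle (VV B r B)),
      Relation.EqvGen (fun x y => (∃ u : ℝ, y = u +ᵥ x) ∨ y = up x)
        (Sum.inr (Sum.inl ⟨σ, a⟩) : CC B r)
        (Sum.inl ⟨((0 : ZMod B), σ), (0 : AddCircle (r 0))⟩) := by
    intro σ a
    exact htrans _ _ _ (c2 σ a _)
      (hsymm _ _ (s12 ⟨((0 : ZMod B), σ), (0 : AddCircle (r 0))⟩))
  have b1 : ∀ x : Cs B r,
      Relation.EqvGen (fun x y => (∃ u : ℝ, y = u +ᵥ x) ∨ y = up x)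
        (Sum.inl x : CC B r)
        (Sum.inl ⟨((0 : ZMod B), x.1.2), (0 : AddCircle (r 0))⟩) :=
    fun x => htrans _ _ _ (s12 x) (b2 x.1.2 _)
  have hflip : ∀ σ : ℤˣ, Relation.EqvGen (fun x y => (∃ u : ℝ, y = u +ᵥ x) ∨ y = up x)
      (Sum.inl ⟨((0 : ZMod B), σ), (0 : AddCircle (r 0))⟩ : CC B r)
      (Sum.inl ⟨((0 : ZMod B), -σ), (0 : AddCircle (r 0))⟩) := by
    intro σ
    have h4 := s13 ⟨((0 : ZMod B), σ), (0 : AddCircle (r 0))⟩
    have h5 := c3 ((0 : ZMod B), σ) 0 ((θ * r 0 : ℝ) : AddCircle (r 0))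
    have h6 : Rup B r θ ys ⟨((0 : ZMod B), σ), ((θ * r 0 : ℝ) : AddCircle (r 0))⟩ =
        ⟨((0 : ZMod B), -σ), (0 : AddCircle (r 0))⟩ := by
      unfold Rup
      have h7 : repO (((θ * r 0 : ℝ) : AddCircle (r 0)) - ((θ * r 0 : ℝ) : AddCircle (r 0))) <
          ys * r 0 := by
        rw [sub_self]
        have h8 := (hrep (r 0) (hr 0)).2.2.1 0 le_rfl (hr 0)
        rw [AddCircle.coe_zero] at h8
        rw [h8]
        exact mul_pos hys (hr 0)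
      show (if repO (((θ * r 0 : ℝ) : AddCircle (r 0)) - ((θ * r 0 : ℝ) : AddCircle (r 0))) <
          ys * r 0 then
        (⟨((0 : ZMod B), -σ), ((θ * r 0 : ℝ) : AddCircle (r 0)) -
          ((θ * r 0 : ℝ) : AddCircle (r 0))⟩ : Cs B r) else _) = _
      rw [if_pos h7, sub_self]
    have h9 : Relation.EqvGen (fun x y => (∃ u : ℝ, y = u +ᵥ x) ∨ y = up x)
        (Sum.inr (Sum.inr ⟨((0 : ZMod B), σ), ((θ * r 0 : ℝ) : AddCircle (r 0))⟩) : CC B r)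
        (Sum.inl ⟨((0 : ZMod B), -σ), (0 : AddCircle (r 0))⟩) := by
      refine Relation.EqvGen.rel _ _ (Or.inr ?_)
      rw [h3, h6]
    exact htrans _ _ _ h4 (htrans _ _ _ h5 h9)
  have hall : ∀ σ : ℤˣ, Relation.EqvGen (fun x y => (∃ u : ℝ, y = u +ᵥ x) ∨ y = up x)
      (Sum.inl ⟨((0 : ZMod B), σ), (0 : AddCircle (r 0))⟩ : CC B r)
      (Sum.inl ⟨((0 : ZMod B), 1), (0 : AddCircle (r 0))⟩) := by
    intro σ
    rcases Int.units_eq_one_or σ with h | h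
    · rw [h]
      exact Relation.EqvGen.refl _
    · rw [h]
      have h4 := hflip (-1)
      rwa [neg_neg] at h4
  have hfin : ∀ x : CC B r, Relation.EqvGen (fun x y => (∃ u : ℝ, y = u +ᵥ x) ∨ y = up x) x
      (Sum.inl ⟨((0 : ZMod B), 1), (0 : AddCircle (r 0))⟩) := by
    rintro (x | ⟨σ, a⟩ | x)
    · exact htrans _ _ _ (b1 x) (hall _)
    · exact htrans _ _ _ (b2 σ a) (hall _)
    · exact htrans _ _ _ (hsymm _ _ (s13 x)) (htrans _ _ _ (b1 x) (hall _))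
  intro x y
  exact htrans _ _ _ (hfin x) (hsymm _ _ (hfin y))

end Horo
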