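import Pool.Agent.Horo.EDefs

/-! # Assembly of the concrete diagram -/

open Topology Filter Set

namespace Horo

namespace DiagAsm

/-- The cyclic permutation `1 → 2 → 3 → 1` of the three stages. -/
noncomputable def cyc3 {A B : Type} (e : A ≃ B) (f : A ≃ A) : (A ⊕ (B ⊕ A)) ≃ (A ⊕ (B ⊕ A)) where
  toFun c := match c with
    | Sum.inl x => Sum.inr (Sum.inl (e x))
    | Sum.inr (Sum.inl b) => Sum.inr (Sum.inr (e.symm b))
    | Sum.inr (Sum.inr x) => Sum.inl (f x)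
  invFun c := match c with
    | Sum.inl y => Sum.inr (Sum.inr (f.symm y))
    | Sum.inr (Sum.inl b) => Sum.inl (e.symm b)
    | Sum.inr (Sum.inr x) => Sum.inr (Sum.inl (e x))
  left_inv c := by
    rcases c with x | b | x
    · show Sum.inl (e.symm (e x)) = _
      rw [Equiv.symm_apply_apply]
    · show Sum.inr (Sum.inl (e (e.symm b))) = _
      rw [Equiv.apply_symm_apply]
    · show Sum.inr (Sum.inr (f.symm (f x))) = _
      rw [Equiv.symm_apply_apply]
  right_inv c := by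
    rcases c with x | b | x
    · show Sum.inl (f (f.symm x)) = _
      rw [Equiv.apply_symm_apply]
    · show Sum.inr (Sum.inl (e (e.symm b))) = _
      rw [Equiv.apply_symm_apply]
    · show Sum.inr (Sum.inr (e.symm (e x))) = _
      rw [Equiv.symm_apply_apply]

end DiagAsm

open DiagAsm

theorem diag (hEb : Stmt_Ebij) (hEn : Stmt_Enear) (hRb : Stmt_Rbij) (hRn : Stmt_Rnear)
    (hbc : Stmt_bendCoc) (hbi : Stmt_bendInv) (hcn : Stmt_connC) : Stmt_diag := by
  intro B r θ ys t a2 x0 L G hB hr hG ht0 ht1 hys0 hys1 hx0 hL hxL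
  have hr0 : ∀ j, 0 < r j := fun j => lt_of_lt_of_le one_pos (hr j)
  obtain ⟨hE1, hE2⟩ := hEb B r hB hr0
  obtain ⟨hR1, hR2⟩ := hRb B r θ ys hB hr0
  have hEnear := hEn B r hB hr0
  have hRnear := hRn B r θ ys hB hr0 hys0 hys1
  obtain ⟨hb1, hb2, -⟩ := hbc B r θ ys t a2 G hB hr hG ht0 ht1
  have hinv := hbi B r θ ys t a2 G hB hr hG ht0 ht1 hys0 hys1
  let eu := Equiv.ofBijective (Eup B r) hE1
  let ed := Equiv.ofBijective (Edn B r) hE2
  let ru := Equiv.ofBijective (Rup B r θ ys) hR1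
  let rd := Equiv.ofBijective (Rdn B r θ ys) hR2
  let up : CC B r ≃ CC B r := cyc3 eu ru
  let dn : CC B r ≃ CC B r := cyc3 ed rd
  have hup1 : ∀ x, up (Sum.inl x) = Sum.inr (Sum.inl (Eup B r x)) := fun x => rfl
  have hdn1 : ∀ x, dn (Sum.inl x) = Sum.inr (Sum.inl (Edn B r x)) := fun x => rfl
  have hup2' : ∀ b, up (Sum.inr (Sum.inl b)) = Sum.inr (Sum.inr (eu.symm b)) := fun b => rfl
  have hdn2' : ∀ b, dn (Sum.inr (Sum.inl b)) = Sum.inr (Sum.inr (ed.symm b)) := fun b => rfl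
  have hsu : ∀ x, eu.symm (Eup B r x) = x := fun x => Equiv.ofBijective_symm_apply_apply _ _ x
  have hsd : ∀ x, ed.symm (Edn B r x) = x := fun x => Equiv.ofBijective_symm_apply_apply _ _ x
  have hup2 : ∀ x, up (Sum.inr (Sum.inl (Eup B r x))) = Sum.inr (Sum.inr x) := by
    intro x
    rw [hup2', hsu]
  have hdn2 : ∀ x, dn (Sum.inr (Sum.inl (Edn B r x))) = Sum.inr (Sum.inr x) := by
    intro x
    rw [hdn2', hsd]
  have hup3 : ∀ x, up (Sum.inr (Sum.inr x)) = Sum.inl (Rup B r θ ys x) := fun x => rfl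
  have hdn3 : ∀ x, dn (Sum.inr (Sum.inr x)) = Sum.inl (Rdn B r θ ys x) := fun x => rfl
  have hb13 : ∀ (x : Cs B r) u, bendC B r t a2 G (Sum.inl x) u =
    bendC B r t a2 G (Sum.inr (Sum.inr x)) u := fun x u => rfl
  refine ⟨{ wid := widC B r x0 L
            wid_pos := ?_
            wid_cont := ?_
            wid_vadd := ?_
            up := up
            dn := dn
            near := ?_
            bend := bendC B r t a2 G
            κ := 1 / 2
            κ_lt_one := by norm_num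
            bend_add := hb1
            bend_le := hb2
            bend_up := ?_
            bend_dn := ?_
            conn := ?_ }, fun c => rfl, fun c u => rfl, hup1, hdn1, hup2, hdn2, hup3, hdn3⟩
  · rintro (x | b | x)
    · exact hx0
    · exact hL
    · show 0 < 1 - x0 - L
      linarith
  · have : widC B r x0 L = Sum.elim (fun _ => x0) (Sum.elim (fun _ => L) fun _ => 1 - x0 - L) := by
      funext c
      rcases c with x | b | x <;> rfl
    rw [this]
    exact Continuous.sumElim continuous_const (Continuous.sumElim continuous_const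
      continuous_const)
  · rintro u (x | b | x) <;> rfl
  · rintro (x | b | x)
    · obtain ⟨δ, hδ, h⟩ := hEnear x
      refine ⟨δ, hδ, fun u h0 h1 => ?_⟩
      obtain ⟨a, b, c, d⟩ := h u h0 h1
      refine ⟨?_, ?_, ?_, ?_⟩
      · show (Sum.inr (Sum.inl (Eup B r (u +ᵥ x))) : CC B r) = Sum.inr (Sum.inl (u +ᵥ Eup B r x))
        rw [a]
      · show (Sum.inr (Sum.inl (Edn B r (u +ᵥ x))) : CC B r) = Sum.inr (Sum.inl (u +ᵥ Eup B r x))
        rw [b]
      · show (Sum.inr (Sum.inl (Eup B r (-u +ᵥ x))) : CC B r) =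
          Sum.inr (Sum.inl (-u +ᵥ Edn B r x))
        rw [c]
      · show (Sum.inr (Sum.inl (Edn B r (-u +ᵥ x))) : CC B r) =
          Sum.inr (Sum.inl (-u +ᵥ Edn B r x))
        rw [d]
    · obtain ⟨x, rfl⟩ := hE1.2 b
      obtain ⟨x', hx'⟩ := hE2.2 (Eup B r x)
      obtain ⟨δ, hδ, h⟩ := hEnear x
      obtain ⟨δ', hδ', h'⟩ := hEnear x'
      refine ⟨min δ δ', lt_min hδ hδ', fun u h0 h1 => ?_⟩
      obtain ⟨a, b, -, -⟩ := h u h0 (lt_of_lt_of_le h1 (min_le_left _ _))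
      obtain ⟨-, -, c, d⟩ := h' u h0 (lt_of_lt_of_le h1 (min_le_right _ _))
      refine ⟨?_, ?_, ?_, ?_⟩
      · show (Sum.inr (Sum.inr (eu.symm (u +ᵥ Eup B r x))) : CC B r) =
          Sum.inr (Sum.inr (u +ᵥ eu.symm (Eup B r x)))
        rw [hsu, ← a, hsu]
      · show (Sum.inr (Sum.inr (ed.symm (u +ᵥ Eup B r x))) : CC B r) =
          Sum.inr (Sum.inr (u +ᵥ eu.symm (Eup B r x)))
        rw [hsu, ← b, hsd]
      · show (Sum.inr (Sum.inr (eu.symm (-u +ᵥ Eup B r x))) : CC B r) =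
          Sum.inr (Sum.inr (-u +ᵥ ed.symm (Eup B r x)))
        rw [← hx', hsd, ← c, hsu]
      · show (Sum.inr (Sum.inr (ed.symm (-u +ᵥ Eup B r x))) : CC B r) =
          Sum.inr (Sum.inr (-u +ᵥ ed.symm (Eup B r x)))
        rw [← hx', hsd, ← d, hsd]
    · obtain ⟨δ, hδ, h⟩ := hRnear x
      refine ⟨δ, hδ, fun u h0 h1 => ?_⟩
      obtain ⟨a, b, c, d⟩ := h u h0 h1
      refine ⟨?_, ?_, ?_, ?_⟩
      · show (Sum.inl (Rup B r θ ys (u +ᵥ x)) : CC B r) = Sum.inl (u +ᵥ Rup B r θ ys x)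
        rw [a]
      · show (Sum.inl (Rdn B r θ ys (u +ᵥ x)) : CC B r) = Sum.inl (u +ᵥ Rup B r θ ys x)
        rw [b]
      · show (Sum.inl (Rup B r θ ys (-u +ᵥ x)) : CC B r) = Sum.inl (-u +ᵥ Rdn B r θ ys x)
        rw [c]
      · show (Sum.inl (Rdn B r θ ys (-u +ᵥ x)) : CC B r) = Sum.inl (-u +ᵥ Rdn B r θ ys x)
        rw [d]
  · rintro (x | b | x)
    · obtain ⟨δ, hδ, h⟩ := hinv x
      refine ⟨δ, hδ, fun u h0 h1 => ?_⟩
      rw [hup1]
      exact (h u h0 h1).1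
    · obtain ⟨x, rfl⟩ := hE1.2 b
      obtain ⟨δ, hδ, h⟩ := hinv x
      refine ⟨δ, hδ, fun u h0 h1 => ?_⟩
      rw [hup2, ← hb13]
      exact (h u h0 h1).1.symm
    · obtain ⟨δ, hδ, h⟩ := hinv x
      refine ⟨δ, hδ, fun u h0 h1 => ?_⟩
      rw [hup3]
      exact (h u h0 h1).2.2.1
  · rintro (x | b | x)
    · obtain ⟨δ, hδ, h⟩ := hinv x
      refine ⟨δ, hδ, fun u h0 h1 => ?_⟩
      rw [hdn1]
      exact (h u h0 h1).2.1
    · obtain ⟨x, rfl⟩ := hE2.2 b
      obtain ⟨δ, hδ, h⟩ := hinv x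
      refine ⟨δ, hδ, fun u h0 h1 => ?_⟩
      rw [hdn2, ← hb13]
      exact (h u h0 h1).2.1.symm
    · obtain ⟨δ, hδ, h⟩ := hinv x
      refine ⟨δ, hδ, fun u h0 h1 => ?_⟩
      rw [hdn3]
      exact (h u h0 h1).2.2.2
  · exact hcn B r θ ys hB hr0 hys0 hys1 up hup1 hup2 hup3

end Horo
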