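import Pool.Agent.Horo.EDefs

/-! Representatives of points of a circle in `[0,p)` and `(0,p]`. -/

namespace Horo

private lemma coe_out {p : ℝ} (x : AddCircle p) :
    ((Quotient.out x : ℝ) : AddCircle p) = x := Quotient.out_eq x

private lemma repO_coe {p : ℝ} (hp : 0 < p) (x : AddCircle p) :
    ((repO x : ℝ) : AddCircle p) = x := by
  have h : repO x = (Quotient.out x : ℝ) - (⌊(Quotient.out x : ℝ) / p⌋ : ℤ) • p := by
    unfold repO
    rw [Int.fract, zsmul_eq_mul]
    field_simp
  rw [h, AddCircle.coe_sub, AddCircle.coe_zsmul, AddCircle.coe_period, smul_zero, sub_zero,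
    coe_out]

private lemma repC_coe {p : ℝ} (hp : 0 < p) (x : AddCircle p) :
    ((repC x : ℝ) : AddCircle p) = x := by
  have h : repC x = (Quotient.out x : ℝ)
      + (1 + ⌊-((Quotient.out x : ℝ) / p)⌋ : ℤ) • p := by
    unfold repC
    rw [Int.fract, zsmul_eq_mul]
    push_cast
    field_simp
    ring
  rw [h, AddCircle.coe_add, AddCircle.coe_zsmul, AddCircle.coe_period, smul_zero, add_zero,
    coe_out]

private lemma eq_of_coe_eq {p : ℝ} (hp : 0 < p) {a b : ℝ}
    (h : (a : AddCircle p) = (b : AddCircle p)) (h1 : a - b < p) (h2 : b - a < p) : a = b := by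
  have : Fact (0 < p) := ⟨hp⟩
  rw [AddCircle.coe_eq_coe_iff_of_mem_Ico (p := p) (a := min a b)] at h
  · exact h
  · constructor
    · exact min_le_left _ _
    · rcases le_total a b with hab | hab
      · rw [min_eq_left hab]; linarith
      · rw [min_eq_right hab]; linarith
  · constructor
    · exact min_le_right _ _
    · rcases le_total a b with hab | hab
      · rw [min_eq_left hab]; linarith
      · rw [min_eq_right hab]; linarith

theorem rep : Stmt_rep := by
  intro p hp
  have hO : ∀ x : AddCircle p, ((repO x : ℝ) : AddCircle p) = x ∧ 0 ≤ repO x ∧ repO x < p := by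
    intro x
    refine ⟨repO_coe hp x, ?_, ?_⟩
    · exact mul_nonneg hp.le (Int.fract_nonneg _)
    · have := Int.fract_lt_one ((Quotient.out x : ℝ) / p)
      unfold repO
      nlinarith
  have hC : ∀ x : AddCircle p, ((repC x : ℝ) : AddCircle p) = x ∧ 0 < repC x ∧ repC x ≤ p := by
    intro x
    refine ⟨repC_coe hp x, ?_, ?_⟩
    · have := Int.fract_lt_one (-((Quotient.out x : ℝ) / p))
      unfold repC
      exact mul_pos hp (by linarith)
    · have := Int.fract_nonneg (-((Quotient.out x : ℝ) / p))
      unfold repC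
      nlinarith
  refine ⟨hO, hC, ?_, ?_⟩
  · intro y h0 h1
    obtain ⟨h2, h3, h4⟩ := hO (y : AddCircle p)
    exact eq_of_coe_eq hp h2 (by linarith) (by linarith)
  · intro y h0 h1
    obtain ⟨h2, h3, h4⟩ := hC (y : AddCircle p)
    exact eq_of_coe_eq hp h2 (by linarith) (by linarith)

end Horo
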